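import Pool.Agent.Helper34.Vol4.PEN
import Pool.Agent.Helper89.Vol5.Goals

/-!
Packet V58-PEN (MP_cd13d2_co): the area of the pentagon from below.
-/

set_option autoImplicit false

namespace Pool.Agent.Helper25.Vol5.PkPEN

open MeasureTheory Set Pool.Agent.Helper86.Poly Pool.Agent.Helper34.Vol4.PkPEN

/-- Packet V58-PEN. -/
theorem thm (hSV : G_SV) : Pool.Agent.Helper89.Vol5.G_PEN := by
  intro t ht
  obtain ⟨ht0, ht1⟩ := ht
  set v := Pool.Agent.Helper89.Vol5.yy t with hv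
  set M := Pool.Agent.Helper89.Vol5.hh t with hM
  set r := Pool.Agent.Helper89.Vol5.rr with hr
  have hr0 : 0 ≤ r := Real.sqrt_nonneg _
  have hr2 : r ^ 2 = 1 / 2 := Real.sq_sqrt (by norm_num)
  have hS : √(6 - (1 + 2 * t) ^ 2) = 2 * v := by
    rw [hv, Pool.Agent.Helper89.Vol5.yy]
    ring
  have hv0 : 0 ≤ v := by
    have := Real.sqrt_nonneg (6 - (1 + 2 * t) ^ 2)
    rw [hS] at this
    linarith
  have hv2 : v ^ 2 = 3 / 2 - (1 / 2 + t) ^ 2 := by
    have h1 : (2 * v) ^ 2 = 6 - (1 + 2 * t) ^ 2 := by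
      rw [← hS]
      exact Real.sq_sqrt (by nlinarith)
    nlinarith
  have hM2 : M ^ 2 = 3 / 2 - t ^ 2 := Real.sq_sqrt (by nlinarith)
  have hM0 : 0 ≤ M := Real.sqrt_nonneg _
  have hMv : v ≤ M := by
    have : v ^ 2 ≤ M ^ 2 := by
      rw [hM2, hv2]
      nlinarith
    exact (sq_le_sq₀ hv0 hM0).1 this
  have htv : 0 ≤ t * v := mul_nonneg ht0 hv0
  have hrv : 0 ≤ r * v := mul_nonneg hr0 hv0
  have hrtv : 0 ≤ r * t * v := mul_nonneg (mul_nonneg hr0 ht0) hv0
  have hrM : 0 ≤ r * (M - v) := mul_nonneg hr0 (by linarith)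
  have hf : Pool.Agent.Helper89.Vol5.h5 t = 2 * ((M - v) / 2 + v / 2 + t * v) := by
    rw [Pool.Agent.Helper89.Vol5.h5, hS, show √(3 / 2 - t ^ 2) = M from rfl]
    ring
  set q0 : Fin 2 → ℝ := ![-(r / 2), 0] with hq0
  set q1 : Fin 2 → ℝ := ![0, r * (v - M)] with hq1
  set q2 : Fin 2 → ℝ := ![r / 2, 0] with hq2
  set q3 : Fin 2 → ℝ := ![r * t, r * v] with hq3
  set q4 : Fin 2 → ℝ := ![-(r * t), r * v] with hq4
  have hQ : Pool.Agent.Helper89.Vol5.P5 t = ![q0, q1, q2, q3, q4] := rfl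
  set p1 : Fin 3 → (Fin 2 → ℝ) := ![q0, q1, q2] with hp1
  set p2 : Fin 3 → (Fin 2 → ℝ) := ![q0, q2, q3] with hp2
  set p3 : Fin 3 → (Fin 2 → ℝ) := ![q0, q3, q4] with hp3
  have v1 : 2 * volume (convexHull ℝ (range p1)) = ENNReal.ofReal ((M - v) / 2) := by
    rw [tri hSV p1]
    congr 1
    rw [show (p1 1 0 - p1 0 0) * (p1 2 1 - p1 0 1) - (p1 1 1 - p1 0 1) * (p1 2 0 - p1 0 0) =
      r ^ 2 * (M - v) by simp [hp1, hq0, hq1, hq2]; ring, hr2]
    rw [abs_of_nonneg (by linarith)]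
    ring
  have v2 : 2 * volume (convexHull ℝ (range p2)) = ENNReal.ofReal (v / 2) := by
    rw [tri hSV p2]
    congr 1
    rw [show (p2 1 0 - p2 0 0) * (p2 2 1 - p2 0 1) - (p2 1 1 - p2 0 1) * (p2 2 0 - p2 0 0) =
      r ^ 2 * v by simp [hp2, hq0, hq2, hq3]; ring, hr2]
    rw [abs_of_nonneg (by linarith)]
    ring
  have v3 : 2 * volume (convexHull ℝ (range p3)) = ENNReal.ofReal (t * v) := by
    rw [tri hSV p3]
    congr 1
    rw [show (p3 1 0 - p3 0 0) * (p3 2 1 - p3 0 1) - (p3 1 1 - p3 0 1) * (p3 2 0 - p3 0 0) =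
      2 * r ^ 2 * (t * v) by simp [hp3, hq0, hq3, hq4]; ring, hr2]
    rw [abs_of_nonneg (by linarith)]
    ring
  -- the line `y = 0`
  have s1 : convexHull ℝ (range p1) ⊆ {q : Fin 2 → ℝ | 0 * q 0 + 1 * q 1 ≤ 0} := by
    apply sub_le
    intro i
    fin_cases i <;> simp [hp1, hq0, hq1, hq2]
    nlinarith
  have s2 : convexHull ℝ (range p2) ⊆ {q : Fin 2 → ℝ | 0 ≤ 0 * q 0 + 1 * q 1} := by
    apply sub_ge
    intro i
    fin_cases i <;> simp [hp2, hq0, hq2, hq3]
    linarith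
  have s3 : convexHull ℝ (range p3) ⊆ {q : Fin 2 → ℝ | 0 ≤ 0 * q 0 + 1 * q 1} := by
    apply sub_ge
    intro i
    fin_cases i <;> simp [hp3, hq0, hq3, hq4] <;> linarith
  -- the line through `P0` and `P3`
  have s4 : convexHull ℝ (range p2) ⊆
      {q : Fin 2 → ℝ | -(v * (r / 2)) ≤ v * q 0 + (-(t + 1 / 2)) * q 1} := by
    apply sub_ge
    intro i
    fin_cases i <;> simp [hp2, hq0, hq2, hq3] <;> nlinarith
  have s5 : convexHull ℝ (range p3) ⊆
      {q : Fin 2 → ℝ | v * q 0 + (-(t + 1 / 2)) * q 1 ≤ -(v * (r / 2))} := by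
    apply sub_le
    intro i
    fin_cases i <;> simp [hp3, hq0, hq3, hq4] <;> nlinarith
  have d1 : AEDisjoint volume (convexHull ℝ (range p2)) (convexHull ℝ (range p3)) := by
    refine measure_mono_null ?_ (null (a := v) (b := -(t + 1 / 2)) (c := -(v * (r / 2)))
      (by linarith))
    rintro q ⟨h1, h2⟩
    exact le_antisymm (s5 h2) (s4 h1)
  have d2 : AEDisjoint volume (convexHull ℝ (range p2) ∪ convexHull ℝ (range p3))
      (convexHull ℝ (range p1)) := by
    refine measure_mono_null ?_ (null (a := 0) (b := 1) (c := 0) one_ne_zero)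
    rintro q ⟨h1, h2⟩
    have h3 : 0 ≤ 0 * q 0 + 1 * q 1 := by
      rcases h1 with h1 | h1
      · exact s2 h1
      · exact s3 h1
    exact le_antisymm (s1 h2) h3
  have hsum : volume ((convexHull ℝ (range p2) ∪ convexHull ℝ (range p3)) ∪
        convexHull ℝ (range p1)) =
      volume (convexHull ℝ (range p2)) + volume (convexHull ℝ (range p3)) +
        volume (convexHull ℝ (range p1)) := by
    rw [measure_union₀ (meas p1).nullMeasurableSet d2,
      measure_union₀ (meas p3).nullMeasurableSet d1]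
  have hsub : (convexHull ℝ (range p2) ∪ convexHull ℝ (range p3)) ∪
      convexHull ℝ (range p1) ⊆ convexHull ℝ (range (Pool.Agent.Helper89.Vol5.P5 t)) := by
    have m0 : q0 ∈ range (Pool.Agent.Helper89.Vol5.P5 t) := ⟨0, rfl⟩
    have m1 : q1 ∈ range (Pool.Agent.Helper89.Vol5.P5 t) := ⟨1, rfl⟩
    have m2 : q2 ∈ range (Pool.Agent.Helper89.Vol5.P5 t) := ⟨2, rfl⟩
    have m3 : q3 ∈ range (Pool.Agent.Helper89.Vol5.P5 t) := ⟨3, rfl⟩
    have m4 : q4 ∈ range (Pool.Agent.Helper89.Vol5.P5 t) := ⟨4, rfl⟩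
    refine union_subset (union_subset (convexHull_mono ?_) (convexHull_mono ?_))
      (convexHull_mono ?_)
    · rintro _ ⟨i, rfl⟩
      fin_cases i
      · exact m0
      · exact m2
      · exact m3
    · rintro _ ⟨i, rfl⟩
      fin_cases i
      · exact m0
      · exact m3
      · exact m4
    · rintro _ ⟨i, rfl⟩
      fin_cases i
      · exact m0
      · exact m1
      · exact m2
  calc ENNReal.ofReal (Pool.Agent.Helper89.Vol5.h5 t)
      = 2 * (ENNReal.ofReal (v / 2) + ENNReal.ofReal (t * v) + ENNReal.ofReal ((M - v) / 2)) := by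
        rw [← ENNReal.ofReal_add (by linarith) htv,
          ← ENNReal.ofReal_add (by linarith) (by linarith), hf,
          ENNReal.ofReal_mul (by norm_num : (0 : ℝ) ≤ 2)]
        congr 1
        · simp
        · congr 1
          ring
    _ = 2 * (2 * volume ((convexHull ℝ (range p2) ∪ convexHull ℝ (range p3)) ∪
        convexHull ℝ (range p1))) := by
        rw [hsum, ← v1, ← v2, ← v3]
        ring
    _ = 4 * volume ((convexHull ℝ (range p2) ∪ convexHull ℝ (range p3)) ∪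
        convexHull ℝ (range p1)) := by
        rw [← mul_assoc]
        norm_num
    _ ≤ 4 * volume (convexHull ℝ (range (Pool.Agent.Helper89.Vol5.P5 t))) := by
        gcongr

end Pool.Agent.Helper25.Vol5.PkPEN
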